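import Mathlib
import Pool.Prelude.Def_F_c31e40fa
import Pool.Agent.V1186.CN.Cyc5
import Pool.Agent.V1186.CN.Siz2

/-!
# The periods of the attracting cycles of the rational maps near typical unicritical polynomials

Let `c₀` be a parameter of the Multibrot set `M_d` whose critical value has the Lyapunov exponent
`χ > 0`; this is so at the landing point of almost every parameter ray, with `χ = log d`. In the space
of the pairs `(P, Q)` of polynomials of degree at most `d` (with the maximum norm of the coefficients)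
let `P / Q` be ANY rational map at distance at most `r` from `z ^ d + c₀ = (z ^ d + c₀) / 1`. For small
`r` the set `|z| > 3` of the sphere (with the point at infinity) is mapped into itself, so that every
cycle is contained in this set or in the disc `|z| ≤ 3`. We prove that all the cycles in the disc of a
period at most `(1 - ε) log (1/r) / χ` are repelling, uniformly: the multiplier is at least `Λ ^ p`, `p`
the period, where `Λ > 1` depends on `c₀` only. Hence the distance to the rational maps with an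
attracting (or a non-repelling) cycle in the disc of a period at most `n` is `exp (-(χ + o(1)) n)`, and
the smallest period of such a cycle in the ball of radius `r` is `(1/χ + o(1)) log (1/r)`. The bound of
the multipliers holds for all holomorphic maps on the disc `|z| < 4` which are uniformly `r`-close to
`z ^ d + c₀` there.
-/

set_option autoImplicit false

open MeasureTheory Filter Metric Topology Polynomial

namespace Pool.Agent.Results.MP_8f2e1c_an.AttractingPeriods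

open Pool.Agent.H713R2 (IsExteriorMap)

/-- The pairs of coefficient vectors of two polynomials of degree at most `d`. -/
abbrev Pair (d : ℕ) := (Fin (d + 1) → ℂ) × (Fin (d + 1) → ℂ)

/-- The polynomial with the given coefficients. -/
noncomputable def poly {d : ℕ} (a : Fin (d + 1) → ℂ) : ℂ[X] :=
  ∑ i : Fin (d + 1), C (a i) * X ^ (i : ℕ)

/-- The pair of the polynomials `z ^ d + c` and `1`. -/
noncomputable def centre (d : ℕ) (c : ℂ) : Pair d :=
  (fun i => (X ^ d + C c : ℂ[X]).coeff i, fun i => (1 : ℂ[X]).coeff i)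

/-- The quotient `P / Q` (at the points where `Q` does not vanish). -/
noncomputable def quot {d : ℕ} (x : Pair d) : ℂ → ℂ :=
  fun z => (poly x.1).eval z / (poly x.2).eval z

open Classical in
/-- The map `P / Q` of the sphere (for polynomials without a common zero, one of which is of degree
`d`). -/
noncomputable def sphereMap {d : ℕ} (x : Pair d) : OnePoint ℂ → OnePoint ℂ := fun y =>
  y.elim
    (if x.2 (Fin.last d) = 0 then OnePoint.infty
      else ((x.1 (Fin.last d) / x.2 (Fin.last d) : ℂ) : OnePoint ℂ))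
    fun z => if (poly x.2).eval z = 0 then OnePoint.infty else ((quot x z : ℂ) : OnePoint ℂ)

/-- The points of the sphere outside the disc `|z| ≤ 3`. -/
def Outside (y : OnePoint ℂ) : Prop := ∀ z : ℂ, y = (z : OnePoint ℂ) → 3 < ‖z‖

/-- The polynomial `z ^ d + c`. -/
def f (d : ℕ) (c : ℂ) : ℂ → ℂ := fun z => z ^ d + c

/-- `z` is a periodic point of `P / Q` of period `p` (or of a divisor of `p`) whose orbit is contained
in the disc `|z| ≤ 3` and contains no pole. -/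
def Periodic {d : ℕ} (x : Pair d) (z : ℂ) (p : ℕ) : Prop :=
  1 ≤ p ∧ (∀ i : ℕ, ‖(quot x)^[i] z‖ ≤ 3 ∧ (poly x.2).eval ((quot x)^[i] z) ≠ 0) ∧
    (quot x)^[p] z = z

/-- The modulus of the derivative of the `p`-th iterate at `z`: the modulus of the multiplier if `z` is
periodic of period `p`. -/
noncomputable def mult {d : ℕ} (x : Pair d) (z : ℂ) (p : ℕ) : ℝ := ‖deriv ((quot x)^[p]) z‖

/-- The unicritical polynomials `z ^ d + c` whose critical point `0` is periodic of a period at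
most `n`. -/
def Unicritical (d n : ℕ) : Set (Pair d) :=
  {x | ∃ c : ℂ, x = centre d c ∧ ∃ p : ℕ, 1 ≤ p ∧ p ≤ n ∧ (f d c)^[p] 0 = 0}

/-- The pairs with an attracting cycle in the disc `|z| ≤ 3` of a period at most `n`. -/
def Attracting (d n : ℕ) : Set (Pair d) := {x | ∃ p ≤ n, ∃ z : ℂ, Periodic x z p ∧ mult x z p < 1}

/-- The pairs with a non-repelling cycle in the disc `|z| ≤ 3` of a period at most `n`. -/
def NonRepelling (d n : ℕ) : Set (Pair d) := {x | ∃ p ≤ n, ∃ z : ℂ, Periodic x z p ∧ mult x z p ≤ 1}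

/-- `S n` lies between `Unicritical d n` and `NonRepelling d n`, for all `n`. -/
def Between (d : ℕ) (S : ℕ → Set (Pair d)) : Prop :=
  ∀ n : ℕ, Unicritical d n ⊆ S n ∧ S n ⊆ NonRepelling d n

/-- The smallest `n` for which `S n` meets the open ball of radius `r` about `x`. -/
noncomputable def first {d : ℕ} (x : Pair d) (S : ℕ → Set (Pair d)) (r : ℝ) : ℕ :=
  sInf {n : ℕ | ∃ a ∈ S n, dist a x < r}

/-- The critical value of `z ^ d + c`, `c` in the Multibrot set, has the Lyapunov exponent `χ > 0`. -/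
def Lyapunov (d : ℕ) (χ : ℝ) (c : ℂ) : Prop :=
  0 < χ ∧ c ∈ N62a1eb23.multibrotSet d ∧
    Tendsto (fun n : ℕ => Real.log ‖deriv ((f d c)^[n]) c‖ / n) atTop (𝓝 χ)

theorem centre_dist {d : ℕ} (hd : 2 ≤ d) (c c₀ : ℂ) :
    dist (centre d c) (centre d c₀) ≤ ‖c - c₀‖ := by
  rw [Prod.dist_eq]
  refine max_le (Pool.Agent.V1186.CN.centre_dist hd c c₀) ?_
  show dist (Pool.Agent.V1186.CN.cone d) (Pool.Agent.V1186.CN.cone d) ≤ _
  rw [dist_self]
  exact norm_nonneg _

theorem den_centre (d : ℕ) (c : ℂ) : poly (centre d c).2 = 1 := Pool.Agent.V1186.CN.poly_cone d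

theorem quot_centre {d : ℕ} (hd : 2 ≤ d) (c : ℂ) : quot (centre d c) = f d c := by
  have h1 : poly (centre d c).1 = X ^ d + C c := Pool.Agent.V1186.CN.poly_centre (by omega) c
  funext z
  unfold quot
  rw [h1, den_centre]
  simp [f]

theorem mult_zero {d : ℕ} (hd : 2 ≤ d) (c : ℂ) {p : ℕ} (hp : 1 ≤ p) : mult (centre d c) 0 p = 0 := by
  obtain ⟨q, rfl⟩ : ∃ q, p = q + 1 := ⟨p - 1, by omega⟩
  have h1 := Pool.Agent.V1186.CN.mu_f d c 0 (q + 1)
  have h2 : Pool.Agent.V1186.CN.mu (Pool.Agent.TH279.MD.f d c) 0 (q + 1) = 0 := by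
    unfold Pool.Agent.V1186.CN.mu
    apply Finset.prod_eq_zero (Finset.mem_range.2 (Nat.succ_pos q))
    rw [Function.iterate_zero, id_eq, Pool.Agent.V1186.CN.deriv_f', zero_pow (by omega), mul_zero]
  rw [h2] at h1
  unfold mult
  rw [quot_centre hd]
  show ‖deriv ((Pool.Agent.TH279.MD.f d c)^[q + 1]) 0‖ = 0
  rw [← h1, norm_zero]

theorem uni_sub {d : ℕ} (hd : 2 ≤ d) (n : ℕ) : Unicritical d n ⊆ Attracting d n := by
  rintro x ⟨c, rfl, p, hp, hpn, h0⟩
  have hP : Pool.Agent.H712R2.P d p c = 0 := h0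
  have hmem := Pool.Agent.V1186.CN.centre_mem hd hp hP
  have hbd : ∀ i : ℕ, ‖(f d c)^[i] 0‖ ≤ 2 := fun i =>
    Pool.Agent.Y298.CA.bd_of_centre hd hp hP i
  refine ⟨p, hpn, 0, ⟨hp, fun i => ⟨?_, ?_⟩, ?_⟩, ?_⟩
  · rw [quot_centre hd]
    exact (hbd i).trans (by norm_num)
  · rw [den_centre, eval_one]
    exact one_ne_zero
  · rw [quot_centre hd]
    exact h0
  · rw [mult_zero hd c hp]
    norm_num

theorem att_sub (d n : ℕ) : Attracting d n ⊆ NonRepelling d n := by
  rintro a ⟨p, hpn, z, hz, hm⟩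
  exact ⟨p, hpn, z, hz, hm.le⟩

/-- the quotient is close to the unicritical polynomial -/
theorem near {d : ℕ} (hd : 2 ≤ d) {c₀ : ℂ} (hc : ‖c₀‖ ≤ 2) {x : Pair d} {s : ℝ}
    (hx : dist x (centre d c₀) ≤ s) (hs : s * (12 * ((d + 1) * 4 ^ d)) ≤ 1) :
    (∀ z ∈ ball (0 : ℂ) 4, (poly x.2).eval z ≠ 0) ∧
    Pool.Agent.V1186.CN.Near d c₀ (quot x) (2 * ((d + 1) * 4 ^ d) * (4 ^ d + 3) * s) ∧
    (∀ z : ℂ, 3 ≤ ‖z‖ → 3 * ‖(poly x.2).eval z‖ < ‖(poly x.1).eval z‖) ∧
    3 * ‖x.2 (Fin.last d)‖ < ‖x.1 (Fin.last d)‖ := by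
  have hs0 : 0 ≤ s := dist_nonneg.trans hx
  have h4 : (1 : ℝ) ≤ 4 ^ d := one_le_pow₀ (by norm_num)
  have h1 : s * ((d + 1) * 4 ^ d) ≤ 1 / 2 := by nlinarith
  have h2 : s * (d + 1) ≤ 1 / 12 := by
    have h3 : s * (d + 1) ≤ s * ((d + 1) * 4 ^ d) := by
      have : (0 : ℝ) ≤ d + 1 := by positivity
      nlinarith [mul_nonneg hs0 this]
    nlinarith
  obtain ⟨a1, a2⟩ := Pool.Agent.V1186.CN.near_rat hd hc hx h1
  obtain ⟨a3, a4⟩ := Pool.Agent.V1186.CN.num_den hd hc hx h2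
  exact ⟨a1, a2, a3, a4⟩

theorem out_step {d : ℕ} {x : Pair d}
    (h1 : ∀ z : ℂ, 3 ≤ ‖z‖ → 3 * ‖(poly x.2).eval z‖ < ‖(poly x.1).eval z‖)
    (h2 : 3 * ‖x.2 (Fin.last d)‖ < ‖x.1 (Fin.last d)‖) {y : OnePoint ℂ} (hy : Outside y) :
    Outside (sphereMap x y) := by
  intro w hw
  induction y using OnePoint.rec with
  | infty =>
    have h3 : sphereMap x OnePoint.infty = (if x.2 (Fin.last d) = 0 then OnePoint.infty
      else ((x.1 (Fin.last d) / x.2 (Fin.last d) : ℂ) : OnePoint ℂ)) := rfl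
    rw [h3] at hw
    split_ifs at hw with h0
    · exact absurd hw (OnePoint.infty_ne_coe w)
    · have h4 := OnePoint.coe_injective hw
      rw [← h4, norm_div, lt_div_iff₀ (norm_pos_iff.2 h0)]
      exact h2
  | coe z =>
    have hz : 3 < ‖z‖ := hy z rfl
    have h3 : sphereMap x (z : OnePoint ℂ) = (if (poly x.2).eval z = 0 then OnePoint.infty
      else ((quot x z : ℂ) : OnePoint ℂ)) := rfl
    rw [h3] at hw
    split_ifs at hw with h0
    · exact absurd hw (OnePoint.infty_ne_coe w)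
    · have h4 := OnePoint.coe_injective hw
      rw [← h4]
      unfold quot
      rw [norm_div, lt_div_iff₀ (norm_pos_iff.2 h0)]
      exact h1 z hz.le

/-- the cycles on the sphere -/
theorem cycle_cases {d : ℕ} {x : Pair d}
    (h0 : ∀ z ∈ ball (0 : ℂ) 4, (poly x.2).eval z ≠ 0)
    (h1 : ∀ z : ℂ, 3 ≤ ‖z‖ → 3 * ‖(poly x.2).eval z‖ < ‖(poly x.1).eval z‖)
    (h2 : 3 * ‖x.2 (Fin.last d)‖ < ‖x.1 (Fin.last d)‖) {y : OnePoint ℂ} {p : ℕ} (hp : 1 ≤ p)
    (hy : (sphereMap x)^[p] y = y) :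
    (∃ z : ℂ, y = (z : OnePoint ℂ) ∧ Periodic x z p) ∨ ∀ i, Outside ((sphereMap x)^[i] y) := by
  by_cases hall : ∀ i, Outside ((sphereMap x)^[i] y)
  · exact Or.inr hall
  · left
    have hper : Function.IsPeriodicPt (sphereMap x) p y := hy
    -- no iterate lies outside
    have hnone : ∀ i, ¬ Outside ((sphereMap x)^[i] y) := by
      intro i hi
      apply hall
      have hlater : ∀ k, Outside ((sphereMap x)^[i + k] y) := by
        intro k
        induction k with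
        | zero => exact hi
        | succ k ih =>
          rw [← add_assoc, Function.iterate_succ_apply']
          exact out_step h1 h2 ih
      intro j
      have h3 := hlater (j + p * i - i)
      have h4 : i + (j + p * i - i) = j + p * i := by
        have : i ≤ j + p * i := by nlinarith
        omega
      rw [h4, Function.iterate_add_apply, (hper.mul_const i)] at h3
      exact h3
    have hdisc : ∀ i, ∃ z : ℂ, (sphereMap x)^[i] y = (z : OnePoint ℂ) ∧ ‖z‖ ≤ 3 := by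
      intro i
      have h3 := hnone i
      unfold Outside at h3
      push Not at h3
      exact h3
    obtain ⟨z, hz, hz3⟩ := hdisc 0
    have hyz : y = (z : OnePoint ℂ) := hz
    have horb : ∀ i, (sphereMap x)^[i] y = (((quot x)^[i] z : ℂ) : OnePoint ℂ) ∧
        ‖(quot x)^[i] z‖ ≤ 3 := by
      intro i
      induction i with
      | zero => exact ⟨hz, hz3⟩
      | succ i ih =>
        obtain ⟨w, hw, hw3⟩ := hdisc (i + 1)
        have h3 : (sphereMap x)^[i + 1] y = (((quot x)^[i + 1] z : ℂ) : OnePoint ℂ) := by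
          rw [Function.iterate_succ_apply', ih.1, Function.iterate_succ_apply']
          have h4 : (poly x.2).eval ((quot x)^[i] z) ≠ 0 := h0 _ (by
            rw [mem_ball_zero_iff]
            exact lt_of_le_of_lt ih.2 (by norm_num))
          show (if (poly x.2).eval ((quot x)^[i] z) = 0 then OnePoint.infty
            else ((quot x ((quot x)^[i] z) : ℂ) : OnePoint ℂ)) = _
          rw [if_neg h4]
        refine ⟨h3, ?_⟩
        rw [h3] at hw
        rw [OnePoint.coe_injective hw]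
        exact hw3
    refine ⟨z, hyz, hp, fun i => ⟨(horb i).2, h0 _ ?_⟩, ?_⟩
    · rw [mem_ball_zero_iff]
      exact lt_of_le_of_lt (horb i).2 (by norm_num)
    · have h3 := (horb p).1
      rw [hy, hyz] at h3
      exact (OnePoint.coe_injective h3).symm

/-- the cycles of the rational maps near the unicritical polynomial -/
theorem main {d : ℕ} (hd : 2 ≤ d) {χ : ℝ} {c₀ : ℂ} (h : Lyapunov d χ c₀) :
    ∃ Λ : ℝ, 1 < Λ ∧ ∀ ε : ℝ, 0 < ε → ε < 1 → ∃ r₀ : ℝ, 0 < r₀ ∧
      ∀ (x : Pair d) (r : ℝ), 0 < r → r ≤ r₀ → dist x (centre d c₀) ≤ r →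
        (∀ y, Outside y → Outside (sphereMap x y)) ∧
        (∀ (y : OnePoint ℂ) (p : ℕ), 1 ≤ p → (sphereMap x)^[p] y = y →
          (∃ z : ℂ, y = (z : OnePoint ℂ) ∧ Periodic x z p) ∨
            ∀ i, Outside ((sphereMap x)^[i] y)) ∧
        ∀ (z : ℂ) (p : ℕ), Periodic x z p → (p : ℝ) ≤ (1 - ε) * Real.log (1 / r) / χ →
          Λ ^ p ≤ mult x z p := by
  have hL : Pool.Agent.Y298.CA.Lyap d χ c₀ := h
  have hc2 : ‖c₀‖ ≤ 2 := Pool.Agent.TH279.MD.norm_le_two hd h.2.1
  have h4 : (1 : ℝ) ≤ 4 ^ d := one_le_pow₀ (by norm_num)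
  have hd1 : (1 : ℝ) ≤ (d : ℝ) + 1 := by
    have : (0 : ℝ) ≤ d := by positivity
    linarith
  have hE : (1 : ℝ) ≤ (d + 1) * 4 ^ d := one_le_mul_of_one_le_of_one_le hd1 h4
  have hK : (1 : ℝ) ≤ 2 * ((d + 1) * 4 ^ d) * (4 ^ d + 3) := by nlinarith
  obtain ⟨Λ, hΛ, H⟩ := Pool.Agent.V1186.CN.cyclesK hd hL hK
  refine ⟨Λ, hΛ, fun ε hε hε1 => ?_⟩
  obtain ⟨s₀, hs₀, H'⟩ := H ε hε hε1
  refine ⟨min s₀ (1 / (12 * ((d + 1) * 4 ^ d))), lt_min hs₀ (by positivity), ?_⟩
  intro x r hr hrr hxr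
  have hr1 : r * (12 * ((d + 1) * 4 ^ d)) ≤ 1 := by
    have h1 : r ≤ 1 / (12 * ((d + 1) * 4 ^ d)) := hrr.trans (min_le_right _ _)
    rwa [le_div_iff₀ (by positivity)] at h1
  obtain ⟨a1, a2, a3, a4⟩ := near hd hc2 hxr hr1
  refine ⟨fun y hy => out_step a3 a4 hy, fun y p hp hy => cycle_cases a1 a3 a4 hp hy, ?_⟩
  intro z p hz hp
  refine H' (quot x) r hr (hrr.trans (min_le_left _ _)) a2 z p hz.1 ?_ hz.2.2 fun i => (hz.2.1 i).1
  rw [one_div, Real.log_inv] at hp
  exact hp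

theorem far {d : ℕ} (hd : 2 ≤ d) {χ : ℝ} {c₀ : ℂ} (h : Lyapunov d χ c₀)
    {S : ℕ → Set (Pair d)} (hS : Between d S) :
    Pool.Agent.V1186.CN.Far χ (centre d c₀) S := by
  intro ε hε hε1
  obtain ⟨Λ, hΛ, H⟩ := main hd h
  obtain ⟨r₀, hr₀, H'⟩ := H ε hε hε1
  refine ⟨r₀, hr₀, fun n a ha s hs hss hds => ?_⟩
  obtain ⟨p, hpn, z, hz, hm⟩ := (hS n).2 ha
  by_contra hcon
  rw [not_lt] at hcon
  have hpR : (p : ℝ) ≤ n := by exact_mod_cast hpn
  have h1 := (H' a s hs hss hds).2.2 z p hz (by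
    rw [one_div, Real.log_inv]
    linarith)
  have h2 : 1 < Λ ^ p := one_lt_pow₀ hΛ (by have := hz.1; omega)
  linarith

/-- **The periods of the attracting cycles of the rational maps near typical unicritical
polynomials.** -/
theorem result (d : ℕ) (hd : 2 ≤ d) :
    Between d (Unicritical d) ∧ Between d (Attracting d) ∧ Between d (NonRepelling d) ∧
    (∀ (χ : ℝ) (c₀ : ℂ), Lyapunov d χ c₀ →
      -- (H) holomorphic maps: all the cycles of small period are uniformly repelling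
      (∃ Λ : ℝ, 1 < Λ ∧ ∀ ε : ℝ, 0 < ε → ε < 1 → ∃ r₀ : ℝ, 0 < r₀ ∧ ∀ (g : ℂ → ℂ) (r : ℝ),
        0 < r → r ≤ r₀ → DifferentiableOn ℂ g (ball 0 4) →
        (∀ z ∈ ball (0 : ℂ) 4, ‖g z - f d c₀ z‖ ≤ r) → ∀ (z : ℂ) (p : ℕ), 1 ≤ p → g^[p] z = z →
          (∀ i, ‖g^[i] z‖ ≤ 3) → (p : ℝ) ≤ (1 - ε) * Real.log (1 / r) / χ →
            Λ ^ p ≤ ‖deriv (g^[p]) z‖) ∧
      -- (A) rational maps: all the cycles of small period in the disc are uniformly repelling
      (∃ Λ : ℝ, 1 < Λ ∧ ∀ ε : ℝ, 0 < ε → ε < 1 → ∃ r₀ : ℝ, 0 < r₀ ∧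
        ∀ (x : Pair d) (r : ℝ), 0 < r → r ≤ r₀ → dist x (centre d c₀) ≤ r →
          (∀ y, Outside y → Outside (sphereMap x y)) ∧
          (∀ (y : OnePoint ℂ) (p : ℕ), 1 ≤ p → (sphereMap x)^[p] y = y →
            (∃ z : ℂ, y = (z : OnePoint ℂ) ∧ Periodic x z p) ∨
              ∀ i, Outside ((sphereMap x)^[i] y)) ∧
          ∀ (z : ℂ) (p : ℕ), Periodic x z p → (p : ℝ) ≤ (1 - ε) * Real.log (1 / r) / χ →
            Λ ^ p ≤ mult x z p) ∧
      -- (B) distance and smallest period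
      ∀ S, Between d S →
        Tendsto (fun n : ℕ => -Real.log (infDist (centre d c₀) (S n)) / n) atTop (𝓝 χ) ∧
        Tendsto (fun r : ℝ => Real.log (1 / r) / first (centre d c₀) S r) (𝓝[>] 0) (𝓝 χ)) ∧
    -- (C) almost every ray
    (∃ ψ : ℂ → ℂ, IsExteriorMap (N62a1eb23.multibrotSet d) ψ) ∧
    ∀ ψ : ℂ → ℂ, IsExteriorMap (N62a1eb23.multibrotSet d) ψ → ∀ᵐ θ : ℝ,
      ∃ c₀ ∈ frontier (N62a1eb23.multibrotSet d),
        Tendsto (fun r : ℝ => ψ (r * Complex.exp (θ * Complex.I))) (𝓝[>] 1) (𝓝 c₀) ∧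
        Lyapunov d (Real.log d) c₀ := by
  refine ⟨fun n => ⟨subset_rfl, (uni_sub hd n).trans (att_sub d n)⟩,
    fun n => ⟨uni_sub hd n, att_sub d n⟩, fun n => ⟨(uni_sub hd n).trans (att_sub d n), subset_rfl⟩,
    fun χ c₀ h => ⟨?_, main hd h, fun S hS => ?_⟩, ?_, ?_⟩
  · have hL : Pool.Agent.Y298.CA.Lyap d χ c₀ := h
    obtain ⟨Λ, hΛ, H⟩ := Pool.Agent.V1186.CN.cycles' hd hL
    refine ⟨Λ, hΛ, fun ε hε hε1 => ?_⟩
    obtain ⟨r₀, hr₀, H'⟩ := H ε hε hε1
    refine ⟨r₀, hr₀, fun g r hr hrr hg hgr z p hp hz hin hpr => ?_⟩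
    rw [one_div, Real.log_inv] at hpr
    exact H' g r hr hrr ⟨hg, hgr⟩ z p hp hpr hz hin
  · have hL : Pool.Agent.Y298.CA.Lyap d χ c₀ := h
    have hu : ∀ c' : ℂ, dist (centre d c') (centre d c₀) ≤ ‖c' - c₀‖ :=
      fun c' => centre_dist hd c' c₀
    have hcen : ∀ n, centre d '' Pool.Agent.V1186.CN.cen d n ⊆ S n := by
      rintro n _ ⟨c', hc', rfl⟩
      exact (hS n).1 ⟨c', rfl, hc'⟩
    have hF := far hd h hS
    refine ⟨hF.lim hd hL (centre d) hu hcen, ?_⟩
    refine (hF.first_lim hd hL (centre d) hu hcen).congr fun r => ?_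
    rw [one_div, Real.log_inv]
    rfl
  · obtain ⟨β, hβ⟩ := Pool.Agent.H713R2.exists_beta (d := d) hd
    exact ⟨_, Pool.Agent.H713R2.exteriorMap_of_beta hβ⟩
  · obtain ⟨β, hβ⟩ := Pool.Agent.H713R2.exists_beta (d := d) hd
    intro ψ hψ
    filter_upwards [Pool.Agent.Y272.TY.ae_neg' (Pool.Agent.Y272.TY.typical_all hd hβ)] with θ hθ
    obtain ⟨c₀, A, R, h⟩ := hθ
    exact ⟨c₀, h.frontier hd hβ, h.tendsto_psi hβ hψ, Pool.Agent.Y298.CA.lyap_of_typ hd hβ h⟩

end Pool.Agent.Results.MP_8f2e1c_an.AttractingPeriods
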