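import Mathlib
import Pool.Prelude.Def_F_c31e40fa
import Pool.Agent.V1186.CN.Cyc8

/-!
# Deep recurrence of the rational maps near typical unicritical polynomials

Let `c₀` be a parameter of the Multibrot set `M_d` whose critical value has the Lyapunov exponent
`χ > 0`; this is so at the landing point of almost every parameter ray, with `χ = log d`. In the space
of the pairs `(P, Q)` of polynomials of degree at most `d` (with the maximum norm of the coefficients)
let `g = P / Q` be ANY rational map at distance at most `r` from `z ^ d + c₀ = (z ^ d + c₀) / 1`. For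
small `r` the set `|z| > 3` of the sphere is mapped into itself; let `K` be the set of the points whose
orbits stay in the disc `|z| ≤ 3`. Fix `0 < ε < 1` and put `T = r ^ ((1 - ε) / (d - 1))`. We prove:

* the derivatives of the iterates of `g` grow exponentially, at a rate which depends on `c₀` and `ε`
  only, along every orbit in `K` as long as it does not enter the disc `|z| < T`;
* every cycle in `K`, of any period, which does not meet this disc is uniformly repelling;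
* if the orbit of a critical point in `K` does not return to the disc, then it satisfies the
  Collet-Eckmann condition;
* the orbit of every point in the interior of `K` enters the disc; the critical points in `|z| ≤ 3`
  lie in the disc `|z| < T`.
-/

set_option autoImplicit false

open MeasureTheory Filter Metric Topology Polynomial

namespace Pool.Agent.Results.MP_8f2e1c_an.DeepRecurrence

open Pool.Agent.H713R2 (IsExteriorMap)

/-- The pairs of coefficient vectors of two polynomials of degree at most `d`. -/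
abbrev Pair (d : ℕ) := (Fin (d + 1) → ℂ) × (Fin (d + 1) → ℂ)

/-- The polynomial with the given coefficients. -/
noncomputable def poly {d : ℕ} (a : Fin (d + 1) → ℂ) : ℂ[X] :=
  ∑ i : Fin (d + 1), C (a i) * X ^ (i : ℕ)

/-- The pair of the polynomials `z ^ d + c` and `1`. -/
noncomputable def centre (d : ℕ) (c : ℂ) : Pair d :=
  (fun i => (X ^ d + C c : ℂ[X]).coeff i, fun i => (1 : ℂ[X]).coeff i)

/-- The quotient `P / Q` (at the points where `Q` does not vanish). -/
noncomputable def quot {d : ℕ} (x : Pair d) : ℂ → ℂ :=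
  fun z => (poly x.1).eval z / (poly x.2).eval z

open Classical in
/-- The map `P / Q` of the sphere (for polynomials without a common zero, one of which is of degree
`d`). -/
noncomputable def sphereMap {d : ℕ} (x : Pair d) : OnePoint ℂ → OnePoint ℂ := fun y =>
  y.elim
    (if x.2 (Fin.last d) = 0 then OnePoint.infty
      else ((x.1 (Fin.last d) / x.2 (Fin.last d) : ℂ) : OnePoint ℂ))
    fun z => if (poly x.2).eval z = 0 then OnePoint.infty else ((quot x z : ℂ) : OnePoint ℂ)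

/-- The points of the sphere outside the disc `|z| ≤ 3`. -/
def Outside (y : OnePoint ℂ) : Prop := ∀ z : ℂ, y = (z : OnePoint ℂ) → 3 < ‖z‖

/-- The points of the plane whose orbits under the map of the sphere stay in the disc `|z| ≤ 3`. -/
def trapped {d : ℕ} (x : Pair d) : Set ℂ :=
  {z | ∀ i : ℕ, ¬ Outside ((sphereMap x)^[i] (z : OnePoint ℂ))}

/-- The polynomial `z ^ d + c`. -/
def f (d : ℕ) (c : ℂ) : ℂ → ℂ := fun z => z ^ d + c

/-- The modulus of the derivative of the `n`-th iterate at `z`. -/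
noncomputable def der {d : ℕ} (x : Pair d) (z : ℂ) (n : ℕ) : ℝ := ‖deriv ((quot x)^[n]) z‖

/-- The radius `r ^ ((1 - ε) / (d - 1))`. -/
noncomputable def rad (d : ℕ) (ε r : ℝ) : ℝ := r ^ ((1 - ε) / ((d : ℝ) - 1))

/-- The critical value of `z ^ d + c`, `c` in the Multibrot set, has the Lyapunov exponent `χ > 0`. -/
def Lyapunov (d : ℕ) (χ : ℝ) (c : ℂ) : Prop :=
  0 < χ ∧ c ∈ N62a1eb23.multibrotSet d ∧
    Tendsto (fun n : ℕ => Real.log ‖deriv ((f d c)^[n]) c‖ / n) atTop (𝓝 χ)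

theorem rad_pow {d : ℕ} (hd : 2 ≤ d) {ε r x : ℝ} (hr : 0 < r) (h : rad d ε r ≤ x) :
    r ^ (1 - ε) ≤ x ^ (d - 1) := by
  have hdR : (2 : ℝ) ≤ d := by exact_mod_cast hd
  have hd1 : 0 < (d : ℝ) - 1 := by linarith
  have h1 : rad d ε r ^ (d - 1) = r ^ (1 - ε) := by
    unfold rad
    rw [← Real.rpow_natCast, ← Real.rpow_mul hr.le, Nat.cast_sub (by omega), Nat.cast_one]
    congr 1
    field_simp
  rw [← h1]
  exact pow_le_pow_left₀ (Real.rpow_nonneg hr.le _) h _

/-- the quotient is close to the unicritical polynomial -/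
theorem near {d : ℕ} (hd : 2 ≤ d) {c₀ : ℂ} (hc : ‖c₀‖ ≤ 2) {x : Pair d} {s : ℝ}
    (hx : dist x (centre d c₀) ≤ s) (hs : s * (12 * ((d + 1) * 4 ^ d)) ≤ 1) :
    (∀ z ∈ ball (0 : ℂ) 4, (poly x.2).eval z ≠ 0) ∧
    Pool.Agent.V1186.CN.Near d c₀ (quot x) (2 * ((d + 1) * 4 ^ d) * (4 ^ d + 3) * s) ∧
    (∀ z : ℂ, 3 ≤ ‖z‖ → 3 * ‖(poly x.2).eval z‖ < ‖(poly x.1).eval z‖) ∧
    3 * ‖x.2 (Fin.last d)‖ < ‖x.1 (Fin.last d)‖ := by
  have hs0 : 0 ≤ s := dist_nonneg.trans hx
  have h4 : (1 : ℝ) ≤ 4 ^ d := one_le_pow₀ (by norm_num)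
  have h1 : s * ((d + 1) * 4 ^ d) ≤ 1 / 2 := by nlinarith
  have h2 : s * (d + 1) ≤ 1 / 12 := by
    have h3 : s * (d + 1) ≤ s * ((d + 1) * 4 ^ d) := by
      have : (0 : ℝ) ≤ d + 1 := by positivity
      nlinarith [mul_nonneg hs0 this]
    nlinarith
  obtain ⟨a1, a2⟩ := Pool.Agent.V1186.CN.near_rat hd hc hx h1
  obtain ⟨a3, a4⟩ := Pool.Agent.V1186.CN.num_den hd hc hx h2
  exact ⟨a1, a2, a3, a4⟩

theorem out_step {d : ℕ} {x : Pair d}
    (h1 : ∀ z : ℂ, 3 ≤ ‖z‖ → 3 * ‖(poly x.2).eval z‖ < ‖(poly x.1).eval z‖)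
    (h2 : 3 * ‖x.2 (Fin.last d)‖ < ‖x.1 (Fin.last d)‖) {y : OnePoint ℂ} (hy : Outside y) :
    Outside (sphereMap x y) := by
  intro w hw
  induction y using OnePoint.rec with
  | infty =>
    have h3 : sphereMap x OnePoint.infty = (if x.2 (Fin.last d) = 0 then OnePoint.infty
      else ((x.1 (Fin.last d) / x.2 (Fin.last d) : ℂ) : OnePoint ℂ)) := rfl
    rw [h3] at hw
    split_ifs at hw with h0
    · exact absurd hw (OnePoint.infty_ne_coe w)
    · have h4 := OnePoint.coe_injective hw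
      rw [← h4, norm_div, lt_div_iff₀ (norm_pos_iff.2 h0)]
      exact h2
  | coe z =>
    have hz : 3 < ‖z‖ := hy z rfl
    have h3 : sphereMap x (z : OnePoint ℂ) = (if (poly x.2).eval z = 0 then OnePoint.infty
      else ((quot x z : ℂ) : OnePoint ℂ)) := rfl
    rw [h3] at hw
    split_ifs at hw with h0
    · exact absurd hw (OnePoint.infty_ne_coe w)
    · have h4 := OnePoint.coe_injective hw
      rw [← h4]
      unfold quot
      rw [norm_div, lt_div_iff₀ (norm_pos_iff.2 h0)]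
      exact h1 z hz.le

/-- the orbits in the disc are given by the quotient -/
theorem trapped_orb {d : ℕ} {x : Pair d}
    (h0 : ∀ z ∈ ball (0 : ℂ) 4, (poly x.2).eval z ≠ 0) {z : ℂ} (hz : z ∈ trapped x) (i : ℕ) :
    (sphereMap x)^[i] (z : OnePoint ℂ) = (((quot x)^[i] z : ℂ) : OnePoint ℂ) ∧
      ‖(quot x)^[i] z‖ ≤ 3 := by
  have hdisc : ∀ i, ∃ w : ℂ, (sphereMap x)^[i] (z : OnePoint ℂ) = (w : OnePoint ℂ) ∧ ‖w‖ ≤ 3 := by
    intro i
    have h3 := hz i
    unfold Outside at h3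
    push Not at h3
    exact h3
  induction i with
  | zero =>
    obtain ⟨w, hw, hw3⟩ := hdisc 0
    have h1 : z = w := OnePoint.coe_injective hw
    refine ⟨rfl, ?_⟩
    show ‖z‖ ≤ 3
    rw [h1]
    exact hw3
  | succ i ih =>
    obtain ⟨w, hw, hw3⟩ := hdisc (i + 1)
    have h3 : (sphereMap x)^[i + 1] (z : OnePoint ℂ) =
        (((quot x)^[i + 1] z : ℂ) : OnePoint ℂ) := by
      rw [Function.iterate_succ_apply', ih.1, Function.iterate_succ_apply']
      have h4 : (poly x.2).eval ((quot x)^[i] z) ≠ 0 := h0 _ (by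
        rw [mem_ball_zero_iff]
        exact lt_of_le_of_lt ih.2 (by norm_num))
      show (if (poly x.2).eval ((quot x)^[i] z) = 0 then OnePoint.infty
        else ((quot x ((quot x)^[i] z) : ℂ) : OnePoint ℂ)) = _
      rw [if_neg h4]
    refine ⟨h3, ?_⟩
    rw [h3] at hw
    rw [OnePoint.coe_injective hw]
    exact hw3

/-- the cycles on the sphere -/
theorem cycle_cases {d : ℕ} {x : Pair d}
    (h1 : ∀ z : ℂ, 3 ≤ ‖z‖ → 3 * ‖(poly x.2).eval z‖ < ‖(poly x.1).eval z‖)
    (h2 : 3 * ‖x.2 (Fin.last d)‖ < ‖x.1 (Fin.last d)‖) {y : OnePoint ℂ} {p : ℕ} (hp : 1 ≤ p)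
    (hy : (sphereMap x)^[p] y = y) :
    (∃ z ∈ trapped x, y = (z : OnePoint ℂ)) ∨ ∀ i, Outside ((sphereMap x)^[i] y) := by
  by_cases hall : ∀ i, Outside ((sphereMap x)^[i] y)
  · exact Or.inr hall
  · left
    have hper : Function.IsPeriodicPt (sphereMap x) p y := hy
    have hnone : ∀ i, ¬ Outside ((sphereMap x)^[i] y) := by
      intro i hi
      apply hall
      have hlater : ∀ k, Outside ((sphereMap x)^[i + k] y) := by
        intro k
        induction k with
        | zero => exact hi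
        | succ k ih =>
          rw [← add_assoc, Function.iterate_succ_apply']
          exact out_step h1 h2 ih
      intro j
      have h3 := hlater (j + p * i - i)
      have h4 : i + (j + p * i - i) = j + p * i := by
        have : i ≤ j + p * i := by nlinarith
        omega
      rw [h4, Function.iterate_add_apply, (hper.mul_const i)] at h3
      exact h3
    have h3 := hnone 0
    unfold Outside at h3
    push Not at h3
    obtain ⟨z, hz, -⟩ := h3
    have hyz : y = (z : OnePoint ℂ) := hz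
    refine ⟨z, fun i => ?_, hyz⟩
    rw [← hyz]
    exact hnone i

/-- The statement for the maps at distance at most `r`. -/
def Recurrence (d : ℕ) (c₀ : ℂ) (ε ν κ r : ℝ) : Prop :=
  ∀ x : Pair d, dist x (centre d c₀) ≤ r →
    (∀ y, Outside y → Outside (sphereMap x y)) ∧
    (∀ z ∈ trapped x, ∀ i : ℕ,
      (sphereMap x)^[i] (z : OnePoint ℂ) = (((quot x)^[i] z : ℂ) : OnePoint ℂ)) ∧
    -- (A) orbits which stay away from the critical points
    (∀ z ∈ trapped x, ∀ n : ℕ, (∀ i < n, rad d ε r ≤ ‖(quot x)^[i] z‖) →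
      κ * r * Real.exp (ν * n) ≤ der x z n) ∧
    -- (B) cycles of any period
    (∀ (y : OnePoint ℂ) (p : ℕ), 1 ≤ p → (sphereMap x)^[p] y = y →
      (∀ i, Outside ((sphereMap x)^[i] y)) ∨ ∃ z ∈ trapped x, y = (z : OnePoint ℂ) ∧
        ((∃ i, ‖(quot x)^[i] z‖ < rad d ε r) ∨ Real.exp (ν * p) ≤ der x z p)) ∧
    -- (C) critical points
    (∀ w : ℂ, ‖w‖ ≤ 3 → deriv (quot x) w = 0 → ‖w‖ < rad d ε r ∧ (w ∈ trapped x →
      (∀ n : ℕ, 1 ≤ n → rad d ε r ≤ ‖(quot x)^[n] w‖) →
        ∀ n : ℕ, κ * r * Real.exp (ν * n) ≤ der x (quot x w) n)) ∧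
    -- (D) the interior of the trapped set
    ∀ z ∈ interior (trapped x), ∃ n : ℕ, ‖(quot x)^[n] z‖ < rad d ε r

theorem main {d : ℕ} (hd : 2 ≤ d) {χ : ℝ} {c₀ : ℂ} (h : Lyapunov d χ c₀) {ε : ℝ} (hε : 0 < ε)
    (hε1 : ε < 1) : ∃ ν r₀ κ : ℝ, 0 < ν ∧ 0 < r₀ ∧ 0 < κ ∧ ∀ r : ℝ, 0 < r → r ≤ r₀ →
      Recurrence d c₀ ε ν κ r := by
  have hL : Pool.Agent.Y298.CA.Lyap d χ c₀ := h
  have hc2 : ‖c₀‖ ≤ 2 := Pool.Agent.TH279.MD.norm_le_two hd h.2.1
  have h4 : (1 : ℝ) ≤ 4 ^ d := one_le_pow₀ (by norm_num)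
  have hdR : (2 : ℝ) ≤ d := by exact_mod_cast hd
  have hdm : 0 < (d : ℝ) - 1 := by linarith
  have hd1 : (1 : ℝ) ≤ (d : ℝ) + 1 := by linarith
  have hE : (1 : ℝ) ≤ (d + 1) * 4 ^ d := one_le_mul_of_one_le_of_one_le hd1 h4
  set K : ℝ := 2 * ((d + 1) * 4 ^ d) * (4 ^ d + 3) with hKdef
  have hK : (1 : ℝ) ≤ K := by rw [hKdef]; nlinarith
  have hK0 : 0 < K := by linarith
  obtain ⟨ν, r₁, κ, hν, hr₁, hκ, H⟩ := Pool.Agent.V1186.CN.recurK hd hL hK hε hε1
  -- the critical points lie in the disc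
  have hlim : Tendsto (fun r : ℝ => K * r ^ ε) (𝓝[>] 0) (𝓝 0) := by
    have h2 : Tendsto (fun r : ℝ => K * r ^ ε) (𝓝 0) (𝓝 (K * (0 : ℝ) ^ ε)) :=
      (Real.continuousAt_rpow_const 0 _ (Or.inr hε.le)).tendsto.const_mul _
    rw [Real.zero_rpow hε.ne', mul_zero] at h2
    exact h2.mono_left nhdsWithin_le_nhds
  have hev : ∀ᶠ r : ℝ in 𝓝[>] 0, K * r ^ ε < 1 := hlim.eventually_lt_const one_pos
  rw [eventually_nhdsWithin_iff, Metric.eventually_nhds_iff] at hev
  obtain ⟨r₂, hr₂, hr₂'⟩ := hev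
  refine ⟨ν, min (min r₁ (r₂ / 2)) (1 / (12 * ((d + 1) * 4 ^ d))), κ, hν,
    lt_min (lt_min hr₁ (by positivity)) (by positivity), hκ, ?_⟩
  intro r hr hrr x hxr
  have hra : r ≤ r₁ := hrr.trans ((min_le_left _ _).trans (min_le_left _ _))
  have hrb : r ≤ r₂ / 2 := hrr.trans ((min_le_left _ _).trans (min_le_right _ _))
  have hr1 : r * (12 * ((d + 1) * 4 ^ d)) ≤ 1 := by
    have h1 : r ≤ 1 / (12 * ((d + 1) * 4 ^ d)) := hrr.trans (min_le_right _ _)
    rwa [le_div_iff₀ (by positivity)] at h1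
  obtain ⟨a1, a2, a3, a4⟩ := near hd hc2 hxr hr1
  have hKr : K * r ^ ε < 1 := by
    refine hr₂' ?_ hr
    rw [Real.dist_eq, sub_zero, abs_of_pos hr]
    linarith
  have hκr : 0 < κ * r := by positivity
  have hmu : ∀ z : ℂ, (∀ i, ‖(quot x)^[i] z‖ ≤ 3) → ∀ n : ℕ,
      ‖Pool.Agent.V1186.CN.mu (quot x) z n‖ = der x z n := by
    intro z hz n
    unfold der
    rw [(Pool.Agent.V1186.CN.hasDerivAt_iter (n := n) fun i _ => a2.diffAt (hz i)).deriv]
  have H' : ∀ z : ℂ, (∀ i, ‖(quot x)^[i] z‖ ≤ 3) → ∀ n : ℕ,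
      (∀ i < n, rad d ε r ≤ ‖(quot x)^[i] z‖) → κ * r * Real.exp (ν * n) ≤ der x z n := by
    intro z hz n hn
    rw [← hmu z hz]
    exact H (quot x) r hr hra a2 z hz n fun i hi => rad_pow hd hr (hn i hi)
  refine ⟨fun y hy => out_step a3 a4 hy, fun z hz i => (trapped_orb a1 hz i).1,
    fun z hz n hn => H' z (fun i => (trapped_orb a1 hz i).2) n hn, ?_, ?_, ?_⟩
  · intro y p hp hy
    rcases cycle_cases a3 a4 hp hy with ⟨z, hz, hyz⟩ | hout
    · refine Or.inr ⟨z, hz, hyz, ?_⟩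
      by_cases hclose : ∃ i, ‖(quot x)^[i] z‖ < rad d ε r
      · exact Or.inl hclose
      · right
        push Not at hclose
        have horb := fun i => (trapped_orb a1 hz i).2
        have hzp : (quot x)^[p] z = z := by
          have h1 := (trapped_orb a1 hz p).1
          rw [← hyz, hy, hyz] at h1
          exact (OnePoint.coe_injective h1).symm
        rw [← hmu z horb]
        refine Pool.Agent.V1186.CN.growthA hp hzp hκr fun t => ?_
        rw [hmu z horb]
        exact H' z horb t fun i _ => hclose i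
    · exact Or.inl hout
  · intro w hw hcw
    refine ⟨?_, fun hwt hn n => ?_⟩
    · have h1 := (Pool.Agent.V1186.CN.crit_near hd a2.1 a2.2 hw hcw).1
      have h2 : K * r < r ^ (1 - ε) := by
        have h3 : r = r ^ ε * r ^ (1 - ε) := by
          rw [← Real.rpow_add hr]
          simp
        have h5 : 0 < r ^ (1 - ε) := Real.rpow_pos_of_pos hr _
        calc K * r = K * (r ^ ε * r ^ (1 - ε)) := by rw [← h3]
          _ = (K * r ^ ε) * r ^ (1 - ε) := (mul_assoc _ _ _).symm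
          _ < 1 * r ^ (1 - ε) := by gcongr
          _ = _ := one_mul _
      by_contra hcon
      rw [not_lt] at hcon
      have h3 := rad_pow hd hr hcon
      linarith
    · have horb := fun i => (trapped_orb a1 hwt i).2
      have hit : ∀ i : ℕ, (quot x)^[i] (quot x w) = (quot x)^[i + 1] w := fun i =>
        (Function.iterate_succ_apply (quot x) i w).symm
      refine H' (quot x w) (fun i => ?_) n fun i _ => ?_
      · rw [hit]
        exact horb _
      · rw [hit]
        exact hn (i + 1) (by omega)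
  · intro z hz
    by_contra hcon
    push Not at hcon
    obtain ⟨s, hs, hsub⟩ := Metric.mem_nhds_iff.1 (mem_interior_iff_mem_nhds.1 hz)
    have hb : ∀ w ∈ ball z s, ∀ i, ‖(quot x)^[i] w‖ ≤ 3 := fun w hw i =>
      (trapped_orb a1 (hsub hw) i).2
    refine Pool.Agent.V1186.CN.exp_unbdd hκr hν (B := 3 / (s / 2)) fun n => ?_
    refine (H' z (hb z (mem_ball_self hs)) n fun i _ => hcon i).trans ?_
    rw [← hmu z (hb z (mem_ball_self hs))]
    exact Pool.Agent.V1186.CN.not_expanded a2 hs hb n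

/-- **Deep recurrence of the rational maps near typical unicritical polynomials.** -/
theorem result (d : ℕ) (hd : 2 ≤ d) :
    (∀ (χ : ℝ) (c₀ : ℂ), Lyapunov d χ c₀ → ∀ ε : ℝ, 0 < ε → ε < 1 →
      ∃ ν r₀ κ : ℝ, 0 < ν ∧ 0 < r₀ ∧ 0 < κ ∧ ∀ r : ℝ, 0 < r → r ≤ r₀ →
        Recurrence d c₀ ε ν κ r) ∧
    (∃ ψ : ℂ → ℂ, IsExteriorMap (N62a1eb23.multibrotSet d) ψ) ∧
    ∀ ψ : ℂ → ℂ, IsExteriorMap (N62a1eb23.multibrotSet d) ψ → ∀ᵐ θ : ℝ,
      ∃ c₀ ∈ frontier (N62a1eb23.multibrotSet d),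
        Tendsto (fun r : ℝ => ψ (r * Complex.exp (θ * Complex.I))) (𝓝[>] 1) (𝓝 c₀) ∧
        Lyapunov d (Real.log d) c₀ := by
  refine ⟨fun χ c₀ h ε hε hε1 => main hd h hε hε1, ?_, ?_⟩
  · obtain ⟨β, hβ⟩ := Pool.Agent.H713R2.exists_beta (d := d) hd
    exact ⟨_, Pool.Agent.H713R2.exteriorMap_of_beta hβ⟩
  · obtain ⟨β, hβ⟩ := Pool.Agent.H713R2.exists_beta (d := d) hd
    intro ψ hψ
    filter_upwards [Pool.Agent.Y272.TY.ae_neg' (Pool.Agent.Y272.TY.typical_all hd hβ)] with θ hθ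
    obtain ⟨c₀, A, R, h⟩ := hθ
    exact ⟨c₀, h.frontier hd hβ, h.tendsto_psi hβ hψ, Pool.Agent.Y298.CA.lyap_of_typ hd hβ h⟩

end Pool.Agent.Results.MP_8f2e1c_an.DeepRecurrence
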