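import Mathlib
import Pool.Agent.TH864.ZO.ZL

/-!
# For which exponents `n` is `P (z ^ n) / Q (z ^ n)` hyperbolic?

Let `R = P / Q` be a rational map in lowest terms, of degree `d ≥ 1`, with `|R|` not identically one on the
unit circle.  The finite critical values of the maps `z ↦ R (z ^ n)`, `n ≥ 2`, do not depend on `n`: they are
`R 0`, `R ∞` and the critical values of `R` (those of them which are finite).  The exponent `n` is RESONANT if
the orbit of one of them under `z ↦ R (z ^ n)` consists of roots of unity and contains no critical point.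

* Resonance depends only on `n` modulo some `M ≥ 1`.
* If `n` is resonant (and large) the map `R (z ^ n)` is NOT hyperbolic.
* If `n` is not resonant (and large) the map `R (z ^ n)` is hyperbolic, unless `n` is exceptional: the orbit of
  one of the critical values consists first of roots of unity and then leaves them at a point `x` of the unit
  circle, with `||P (x ^ n)| - |Q (x ^ n)|| ≤ C (log n) / n`.
* The exceptional exponents are sparse: there is `K` such that for every `L` each window `[N, N + L)` with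
  `N` large contains at most `K` of them.
* Hence the set of the exponents with a hyperbolic map has a density. It is a rational number, the
  proportion of the non-resonant classes modulo `M`; it is `1` if none of the critical values is a root of unity.

Hyperbolicity is the notion used in the frozen statement `S05373` of this problem. The proof is that of
`Pool.Agent.TH864.ZO.zero_one` in the starting library (never handed in).
-/

set_option autoImplicit false

open Set Filter Topology

namespace Pool.Agent.Results.MP_8f2e1c_an.ExponentZeroOneLaw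

/-- The orbit of `c` under `f` converges to an attracting periodic cycle (the notion used in the
frozen statement `S05373`). -/
def Attracted (f : OnePoint ℂ → OnePoint ℂ) (c : OnePoint ℂ) : Prop :=
  ∃ z : OnePoint ℂ, ∃ n : ℕ, 0 < n ∧ f^[n] z = z ∧
    (∃ U ∈ nhds z, ∀ w ∈ U,
      Filter.Tendsto (fun k : ℕ => f^[n * k] w) Filter.atTop (nhds z)) ∧
    Filter.Tendsto (fun k : ℕ => f^[n * k] c) Filter.atTop (nhds z)

/-- `f` is the continuous map of the Riemann sphere given by `P / Q`. -/
def SphereMap (P Q : Polynomial ℂ) (f : OnePoint ℂ → OnePoint ℂ) : Prop :=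
  Continuous f ∧ ∀ z : ℂ, Q.eval z ≠ 0 →
    f (OnePoint.some z) = OnePoint.some (P.eval z / Q.eval z)

/-- `P / Q` is in lowest terms and every critical point (point of the Riemann sphere where the map
is not locally injective) has an orbit converging to an attracting periodic cycle, as in the frozen
statement `S05373`. -/
def Hyperbolic (P Q : Polynomial ℂ) : Prop :=
  IsCoprime P Q ∧ ∃ f : OnePoint ℂ → OnePoint ℂ, SphereMap P Q f ∧
    ∀ c : OnePoint ℂ, (¬ ∃ U ∈ nhds c, Set.InjOn f U) → Attracted f c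

/-- The set of the exponents `n` for which `P (z ^ n) / Q (z ^ n)` is hyperbolic. -/
def hyperbolicExponents (P Q : Polynomial ℂ) : Set ℕ :=
  {n | Hyperbolic (P.comp (Polynomial.X ^ n)) (Q.comp (Polynomial.X ^ n))}

/-- The polynomial `P' Q - P Q'`; its zeros are the finite critical points of `P / Q`. -/
noncomputable def crit (P Q : Polynomial ℂ) : Polynomial ℂ :=
  Polynomial.derivative P * Q - P * Polynomial.derivative Q

/-- The finite critical values of the maps `R (z ^ n)`, where `R = P / Q` has degree `d`: the values `R 0`,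
`R ∞`, and `R y` for the finite critical points `y` of `R`, as far as they are finite. -/
def CriticalValue (P Q : Polynomial ℂ) (d : ℕ) (v : ℂ) : Prop :=
  (Q.eval 0 ≠ 0 ∧ v = P.eval 0 / Q.eval 0) ∨ (Q.coeff d ≠ 0 ∧ v = P.coeff d / Q.coeff d) ∨
    ∃ y : ℂ, (crit P Q).eval y = 0 ∧ Q.eval y ≠ 0 ∧ v = P.eval y / Q.eval y

/-- The map `y ↦ R (y ^ n)` in the plane. -/
noncomputable def step (P Q : Polynomial ℂ) (n : ℕ) (y : ℂ) : ℂ :=
  P.eval (y ^ n) / Q.eval (y ^ n)

/-- `x` is a root of unity. -/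
def RootOfUnity (x : ℂ) : Prop := ∃ k : ℕ, 0 < k ∧ x ^ k = 1

/-- The orbit of some critical value consists of roots of unity and contains no critical point. -/
def Resonant (P Q : Polynomial ℂ) (d n : ℕ) : Prop :=
  ∃ v, CriticalValue P Q d v ∧ ∀ j, RootOfUnity ((step P Q n)^[j] v) ∧
    (crit P Q).eval (((step P Q n)^[j] v) ^ n) ≠ 0

/-- The orbit of some critical value leaves the roots of unity at a point `x` of the unit circle with
`||P (x ^ n)| - |Q (x ^ n)|| ≤ c`. -/
def Exceptional (P Q : Polynomial ℂ) (d : ℕ) (c : ℝ) (n : ℕ) : Prop :=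
  ∃ v, CriticalValue P Q d v ∧ ∃ j, (∀ i < j, RootOfUnity ((step P Q n)^[i] v)) ∧
    ‖(step P Q n)^[j] v‖ = 1 ∧ ¬ RootOfUnity ((step P Q n)^[j] v) ∧
    |‖P.eval (((step P Q n)^[j] v) ^ n)‖ - ‖Q.eval (((step P Q n)^[j] v) ^ n)‖| ≤ c

theorem hyperbolic_iff (P Q : Polynomial ℂ) :
    Hyperbolic P Q ↔ Pool.Agent.H762R2.Rt.Hyp P Q := by
  constructor
  · rintro ⟨h1, f, ⟨h2, h3⟩, h4⟩
    exact ⟨h1, f, h2, h3, h4⟩
  · rintro ⟨h1, f, h2, h3, h4⟩
    exact ⟨h1, f, ⟨h2, h3⟩, h4⟩

theorem mem_iff (P Q : Polynomial ℂ) (n : ℕ) : n ∈ hyperbolicExponents P Q ↔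
    Pool.Agent.H762R2.Rt.Hyp (Polynomial.expand ℂ n P) (Polynomial.expand ℂ n Q) := by
  unfold hyperbolicExponents
  rw [Set.mem_setOf_eq, hyperbolic_iff, Polynomial.expand_eq_comp_X_pow,
    Polynomial.expand_eq_comp_X_pow]

theorem step_eq (P Q : Polynomial ℂ) (n : ℕ) : step P Q n = Pool.Agent.TH864.ZO.st P Q n 1 := by
  funext y
  unfold step Pool.Agent.TH864.ZO.st
  rw [one_mul]

theorem res_iff (P Q : Polynomial ℂ) (d n : ℕ) :
    Resonant P Q d n ↔ Pool.Agent.TH864.ZO.Res P Q d n := by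
  unfold Resonant Pool.Agent.TH864.ZO.Res
  rw [step_eq]
  rfl

theorem exc_iff (P Q : Polynomial ℂ) (d : ℕ) (c : ℝ) (n : ℕ) :
    Exceptional P Q d c n ↔ Pool.Agent.TH864.ZO.Exc P Q d c n := by
  unfold Exceptional Pool.Agent.TH864.ZO.Exc
  rw [step_eq]
  rfl

/-- **Zero-one law for the exponents.** -/
theorem result (P Q : Polynomial ℂ) (hc : IsCoprime P Q) (d : ℕ)
    (hd : d = max P.natDegree Q.natDegree) (hd1 : 1 ≤ d)
    (hne : ∃ u : ℂ, ‖u‖ = 1 ∧ ‖P.eval u‖ ≠ ‖Q.eval u‖) :
    (∃ M K n₀ : ℕ, ∃ C : ℝ, 0 < M ∧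
      (∀ n m : ℕ, n ≡ m [MOD M] → (Resonant P Q d n ↔ Resonant P Q d m)) ∧
      (∀ n, n₀ ≤ n → Resonant P Q d n → n ∉ hyperbolicExponents P Q) ∧
      (∀ n, n₀ ≤ n → ¬ Resonant P Q d n → ¬ Exceptional P Q d (C * (Real.log n / n)) n →
        n ∈ hyperbolicExponents P Q) ∧
      (∀ L : ℕ, ∃ N₀ : ℕ, ∀ N, N₀ ≤ N →
        ({n : ℕ | Exceptional P Q d (C * (Real.log n / n)) n} ∩ Set.Ico N (N + L)).ncard ≤ K) ∧
      Tendsto (fun N : ℕ => ((hyperbolicExponents P Q ∩ Set.Iio N).ncard : ℝ) / N) atTop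
        (𝓝 (({a | a < M ∧ ¬ Resonant P Q d a}.ncard : ℝ) / M))) ∧
    ((∀ v, CriticalValue P Q d v → ¬ RootOfUnity v) →
      Tendsto (fun N : ℕ => ((hyperbolicExponents P Q ∩ Set.Iio N).ncard : ℝ) / N) atTop (𝓝 1)) := by
  have key := Pool.Agent.TH864.ZO.zero_one hc hd hd1 hne
  have hS : {n : ℕ | Pool.Agent.H762R2.Rt.Hyp (Polynomial.expand ℂ n P)
      (Polynomial.expand ℂ n Q)} = hyperbolicExponents P Q := by
    ext n
    exact (mem_iff P Q n).symm
  simp only [← res_iff, ← exc_iff, ← mem_iff] at key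
  obtain ⟨M, K, n₀, C, hM, h1, h2, h3, h4, h5⟩ := key
  have h5' : Tendsto (fun N : ℕ => ((hyperbolicExponents P Q ∩ Set.Iio N).ncard : ℝ) / N) atTop
      (𝓝 (({a | a < M ∧ ¬ Resonant P Q d a}.ncard : ℝ) / M)) := h5
  refine ⟨⟨M, K, n₀, C, hM, h1, h2, h3, h4, h5'⟩, fun hv => ?_⟩
  have h6 : {a | a < M ∧ ¬ Resonant P Q d a} = Set.Iio M := by
    ext a
    constructor
    · exact fun h => h.1
    · refine fun h => ⟨h, ?_⟩
      rintro ⟨v, h7, h8⟩
      exact hv v h7 (h8 0).1
  rw [h6, Set.ncard_Iio_nat] at h5'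
  have hM0 : (M : ℝ) ≠ 0 := by exact_mod_cast hM.ne'
  rwa [div_self hM0] at h5'

end Pool.Agent.Results.MP_8f2e1c_an.ExponentZeroOneLaw
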